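import Pool.Agent.Lib.Ovals2801ND.Final

set_option autoImplicit false

/-! The ovals inequality in Euclidean space of any dimension, for closed curves of class
`W^{2,2}` and test functions of class `H¹`. -/

namespace Pool.Agent.Results.MP_2801bd_mp.AllDimensions

/-- For every closed unit speed curve of length `2π` in `ℝⁿ` with absolutely continuous tangent
and square integrable curvature, and every `2π`-periodic absolutely continuous function `φ` with
square integrable derivative, `∫ φ² ≤ ∫ (φ'² + κ² φ²)` over a period. -/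
theorem result :
    ∀ (n : ℕ) (γ : ℝ → EuclideanSpace ℝ (Fin n)),
      ContDiff ℝ 1 γ →
      Function.Periodic γ (2 * Real.pi) →
      (∀ s : ℝ, ‖deriv γ s‖ = 1) →
      AbsolutelyContinuousOnInterval (deriv γ) 0 (2 * Real.pi) →
      IntervalIntegrable (fun s => ‖deriv (deriv γ) s‖ ^ 2) MeasureTheory.volume
        0 (2 * Real.pi) →
      ∀ φ : ℝ → ℝ,
        Function.Periodic φ (2 * Real.pi) →
        AbsolutelyContinuousOnInterval φ 0 (2 * Real.pi) →
        IntervalIntegrable (fun s => (deriv φ s) ^ 2) MeasureTheory.volume 0 (2 * Real.pi) →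
        (∫ s in (0 : ℝ)..(2 * Real.pi), (φ s) ^ 2) ≤
          ∫ s in (0 : ℝ)..(2 * Real.pi),
            ((deriv φ s) ^ 2 + ‖deriv (deriv γ) s‖ ^ 2 * (φ s) ^ 2) :=
  fun _ _ hγ hper hunit hac hk _ hφper hφac hφ2 =>
    Ovals2801ND.ovals_nd hγ hper hunit hac hk hφper hφac hφ2

end Pool.Agent.Results.MP_2801bd_mp.AllDimensions
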